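import Pool.Agent.Y234.FP.Stm

/-!
The ideal is a point of the multigraded Hilbert functor (job FP-HI).
-/

set_option autoImplicit false

open MvPolynomial Pool.Agent.Results.MP_94ed3e_ag.FatPoint Pool.Agent.Y234.FP

namespace Pool.Agent.Y681.FP

universe u

/-- The exponent vector of `x ^ (m + p - q) z ^ q`. -/
noncomputable def ex (r m : ℕ) (p : Fin m × Fin (m + 1)) : Fin (r + 2) →₀ ℕ :=
  Finsupp.single 0 (m + (p.1 : ℕ) - (p.2 : ℕ)) + Finsupp.single 1 (p.2 : ℕ)

lemma zero_ne_one_fin (r : ℕ) : (0 : Fin (r + 2)) ≠ 1 := by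
  intro h
  have := congrArg Fin.val h
  simp at this

lemma ex_zero (r m : ℕ) (p : Fin m × Fin (m + 1)) :
    ex r m p 0 = m + (p.1 : ℕ) - (p.2 : ℕ) := by
  simp [ex]

lemma ex_one (r m : ℕ) (p : Fin m × Fin (m + 1)) : ex r m p 1 = (p.2 : ℕ) := by
  simp [ex]

lemma ex_succ (r m : ℕ) (p : Fin m × Fin (m + 1)) (i : Fin r) : ex r m p i.succ.succ = 0 := by
  have h0 : (0 : Fin (r + 2)) ≠ i.succ.succ := (Fin.succ_ne_zero _).symm
  have h1 : (1 : Fin (r + 2)) ≠ i.succ.succ := by
    intro h
    have := congrArg Fin.val h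
    simp at this
  rw [ex, Finsupp.add_apply, Finsupp.single_eq_of_ne h0.symm, Finsupp.single_eq_of_ne h1.symm,
    add_zero]

lemma ax_ex (r m : ℕ) (p : Fin m × Fin (m + 1)) : ax (ex r m p) = m + (p.1 : ℕ) := by
  rw [ax, ex_zero, ex_one]
  have := p.2.2
  omega

lemma bx_ex (r m : ℕ) (p : Fin m × Fin (m + 1)) : bx (ex r m p) = (p.2 : ℕ) := by
  rw [bx, yd, ex_one]
  simp [ex_succ]

lemma ax_toE {r m : ℕ} (u : Ix1 r m) : ax (toE u) < m := u.2.1

lemma toE_inj {r m : ℕ} {u v : Ix1 r m} (h : toE u = toE v) : u = v := by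
  apply Subtype.ext
  funext j
  apply Fin.ext
  exact DFunLike.congr_fun h j

theorem t_HI (hWE : St_WE) : St_HI.{u} := by
  intro T _ r m β hm I hI
  classical
  have hwe : ∀ p : Fin m × Fin (m + 1), Finsupp.weight (wt r) (ex r m p) =
      dg (Sum.inr p : Ix r m) := by
    intro p
    rw [hWE, ax_ex, bx_ex]
    rfl
  have hwu : ∀ u : Ix1 r m, Finsupp.weight (wt r) (toE u) = dg (Sum.inl u : Ix r m) := by
    intro u
    rw [hWE]
    rfl
  have hne : ∀ (u : Ix1 r m) (p : Fin m × Fin (m + 1)),
      dg (Sum.inl u : Ix r m) ≠ dg (Sum.inr p : Ix r m) := by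
    intro u p h
    have h1 : ((ax (toE u) : ℕ) : ℤ) = ((m + (p.1 : ℕ) : ℕ) : ℤ) := congrArg Prod.fst h
    have h2 := ax_toE u
    have h3 : ax (toE u) = m + (p.1 : ℕ) := by exact_mod_cast h1
    omega
  refine mem_hilb_of_functionals I (fn m β) dg hI ?_
    (Sum.elim (fun u => monomial (toE u) 1) (fun p => monomial (ex r m p) 1)) ?_ ?_ ?_
  · intro F a i
    rcases i with u | p
    · change coeff (toE u) (weightedHomogeneousComponent (wt r) a F) = _
      rw [coeff_weightedHomogeneousComponent, hwu]
      rfl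
    · change aeval (pt β) (weightedHomogeneousComponent (wt r) (dg (Sum.inr p : Ix r m))
        (weightedHomogeneousComponent (wt r) a F)) = _
      rw [weightedHomogeneousComponent_of_mem (weightedHomogeneousComponent_mem (wt r) F a)]
      by_cases h : dg (Sum.inr p : Ix r m) = a
      · rw [if_pos h, if_pos h, ← h]
        rfl
      · rw [if_neg h, if_neg h, map_zero]
  · intro i
    rcases i with u | p
    · exact isWeightedHomogeneous_monomial _ _ _ (hwu u)
    · exact isWeightedHomogeneous_monomial _ _ _ (hwe p)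
  · intro i j
    rcases i with u | p
    · rcases j with v | q
      · change coeff (toE u) (monomial (toE v) (1 : T)) = _
        rw [coeff_monomial]
        by_cases h : u = v
        · subst h
          rw [if_pos rfl, if_pos rfl]
        · rw [if_neg fun h' => h (toE_inj h').symm, if_neg fun h' => h (Sum.inl_injective h')]
      · change coeff (toE u) (monomial (ex r m q) (1 : T)) = _
        rw [coeff_monomial, if_neg, if_neg (by simp)]
        intro h
        have h1 := ax_toE u
        rw [← h, ax_ex] at h1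
        omega
    · have hmem : ∀ (e : Fin (r + 2) →₀ ℕ) (b : ℤ × ℤ), Finsupp.weight (wt r) e = b →
          weightedHomogeneousComponent (wt r) (dg (Sum.inr p : Ix r m))
            (monomial e (1 : T)) = if dg (Sum.inr p : Ix r m) = b then monomial e 1 else 0 :=
        fun e b h => weightedHomogeneousComponent_of_mem
          (isWeightedHomogeneous_monomial _ _ _ h)
      rcases j with v | q
      · change aeval (pt β) (weightedHomogeneousComponent (wt r) (dg (Sum.inr p : Ix r m))
          (monomial (toE v) (1 : T))) = _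
        rw [hmem _ _ (hwu v), if_neg (hne v p).symm, map_zero, if_neg (by simp)]
      · change aeval (pt β) (weightedHomogeneousComponent (wt r) (dg (Sum.inr p : Ix r m))
          (monomial (ex r m q) (1 : T))) = _
        rw [hmem _ _ (hwe q)]
        by_cases h : p = q
        · subst h
          rw [if_pos rfl, if_pos rfl]
          have e1 : (monomial (ex r m p) (1 : T)) =
              X 0 ^ (m + (p.1 : ℕ) - (p.2 : ℕ)) * X 1 ^ (p.2 : ℕ) := by
            rw [X_pow_eq_monomial, X_pow_eq_monomial, monomial_mul, one_mul]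
            rfl
          rw [e1, map_mul, map_pow, map_pow, aeval_X, aeval_X]
          have e2 : pt β 0 = 1 := rfl
          have e3 : pt β 1 = 1 := rfl
          rw [e2, e3, one_pow, one_pow, one_mul]
        · have h1 : dg (Sum.inr p : Ix r m) ≠ dg (Sum.inr q : Ix r m) := by
            intro h'
            apply h
            have h2 : ((m + (p.1 : ℕ) : ℕ) : ℤ) = ((m + (q.1 : ℕ) : ℕ) : ℤ) :=
              congrArg Prod.fst h'
            have h3 : ((p.2 : ℕ) : ℤ) = ((q.2 : ℕ) : ℤ) := congrArg Prod.snd h'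
            have h4 : m + (p.1 : ℕ) = m + (q.1 : ℕ) := by exact_mod_cast h2
            have h5 : (p.2 : ℕ) = (q.2 : ℕ) := by exact_mod_cast h3
            exact Prod.ext (Fin.ext (by omega)) (Fin.ext h5)
          rw [if_neg h1, map_zero, if_neg fun h' => h (Sum.inr_injective h')]
  · intro a
    unfold hf
    congr

end Pool.Agent.Y681.FP
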